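import Pool.Agent.Helper78.NW.Dec

/-!
# Bounds for nondeterministic pushdown programs, from the simulation
-/

namespace Pool.Agent.Helper78.NW

open Pool.Agent.Helper74.NW Pool.Agent.Helper19.NF

/-- the cells of a list of queries and of the same list with one more query -/
theorem card_perm_cons {C : Type} {l l' : List C} {c0 : C} (h : l'.Perm (c0 :: l)) {T : ℕ}
    (hT : Nat.card {c // c ∈ l} ≤ T) : Nat.card {c // c ∈ l'} ≤ T + 1 := by
  classical
  have e : ∀ k : List C, Nat.card {c // c ∈ k} = k.toFinset.card := by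
    intro k
    have h1 : Nat.card {c // c ∈ k} = Nat.card {c // c ∈ k.toFinset} :=
      Nat.card_congr (Equiv.subtypeEquivRight (fun c => by simp))
    rw [h1, Nat.card_eq_fintype_card, Fintype.card_coe]
  rw [e] at hT ⊢
  have h1 : l'.toFinset = insert c0 l.toFinset := by
    ext c
    rw [List.mem_toFinset, h.mem_iff, List.mem_cons, Finset.mem_insert, List.mem_toFinset]
  rw [h1]
  exact (Finset.card_insert_le _ _).trans (Nat.add_le_add_right hT 1)

section model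

variable {C W Z Q Γ : Type} {S : ℕ}

/-- a computation of `n` steps has at most `n` queries -/
theorem run_length {P : NPProg C W Z Q Γ} {I : C → W} {x y : Q × List Γ} {l : List C} {n : ℕ}
    (h : P.Run I x l n y) : l.length ≤ n := by
  induction h with
  | nil x => simp
  | ask q q' st c next l n y h1 h2 _ ih => simp only [List.length_cons]; omega
  | push q q' st γ next l n y h1 h2 _ ih => omega
  | pop q q' st γ next l n y h1 h2 _ ih => omega

/-- the simulation `P'` of `P`, with a dummy query `c0`, for computations of at most `L` steps -/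
def Simulates (P : NPProg C W Z Q Γ) (c0 : C) (L : ℕ) (P' : NProg C W Z S) : Prop :=
  ∀ I, (∀ l n z, P.Ends I l n z → n ≤ L → ∃ l', P'.Ends I (c0 :: l') z ∧ l'.Perm l) ∧
    (∀ l' z, P'.Ends I l' z → ∃ l n, P.Ends I l n z ∧ l'.Perm (c0 :: l))

theorem short_of_sim {P : NPProg C W Z Q Γ} {c0 : C} {L R : ℕ} {P' : NProg C W Z S}
    (hB : Simulates P c0 L P') (hL : L + 1 ≤ 2 ^ R) {I : C → W} (hE : ∃ l n z, P.Ends I l n z ∧ n ≤ L)
    {l : List C} {z : Z} (hs : P'.Shortest I l z) : min S l.length ≤ 2 ^ R := by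
  obtain ⟨l0, n0, b0, h0, hn0⟩ := hE
  obtain ⟨l1, h1, h2⟩ := (hB I).1 l0 n0 b0 h0 hn0
  have h3 := hs.2 _ _ h1
  obtain ⟨y, h4, _⟩ := h0
  have h5 := run_length h4
  have h6 := h2.length_eq
  simp only [List.length_cons] at h3
  omega

/-- the main bound for pushdown programs; `rs` is the right result, `φ` the output function -/
theorem push_main_of [Fintype C] [Finite W] (P : NPProg C W Z Q Γ) {R T L : ℕ} (rr : (C → W) → Z)
    (c0 : C) (P' : NProg C W Z S) (hB : Simulates P c0 L P') (hL : L + 1 ≤ 2 ^ R) (X : ℝ)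
    (hmain : (Nat.card {I : C → W // (∃ l z, P'.Ends I l z) ∧
        (∀ l z, P'.Ends I l z → z = rr I) ∧
        ∀ l z, P'.Shortest I l z → Nat.card {b // b ∈ l} ≤ T + 1 ∧ min S l.length ≤ 2 ^ R} : ℝ) ≤ X) :
    (Nat.card {I : C → W // (∃ l k z, P.Ends I l k z ∧ k ≤ L) ∧
      ∀ l k z, P.Ends I l k z → z = rr I ∧ Nat.card {b // b ∈ l} ≤ T} : ℝ) ≤ X := by
  classical
  have : Fintype W := Fintype.ofFinite W
  refine le_trans ?_ hmain
  have h : Nat.card {I : C → W // (∃ l k z, P.Ends I l k z ∧ k ≤ L) ∧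
      ∀ l k z, P.Ends I l k z → z = rr I ∧ Nat.card {b // b ∈ l} ≤ T} ≤
      Nat.card {I : C → W // (∃ l z, P'.Ends I l z) ∧
        (∀ l z, P'.Ends I l z → z = rr I) ∧
        ∀ l z, P'.Shortest I l z → Nat.card {b // b ∈ l} ≤ T + 1 ∧ min S l.length ≤ 2 ^ R} := by
    rw [nc, nc]
    apply Finset.card_le_card
    intro I hI
    rw [Finset.mem_filter] at hI ⊢
    obtain ⟨_, hE, hall⟩ := hI
    refine ⟨Finset.mem_univ _, ?_, ?_, ?_⟩
    · obtain ⟨l0, n0, b0, h0, hn0⟩ := hE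
      obtain ⟨l1, h1, _⟩ := (hB I).1 l0 n0 b0 h0 hn0
      exact ⟨_, _, h1⟩
    · intro l b hlb
      obtain ⟨l1, n1, h1, _⟩ := (hB I).2 l b hlb
      exact (hall l1 n1 b h1).1
    · intro l b hs
      refine ⟨?_, short_of_sim hB hL hE hs⟩
      obtain ⟨l1, n1, h1, hp⟩ := (hB I).2 l b hs.1
      exact card_perm_cons hp (hall l1 n1 b h1).2
  exact_mod_cast h

/-- the decision version for pushdown programs; `yes I` is the right answer -/
theorem push_dec_of [Fintype C] [Finite W] (P : NPProg C W Z Q Γ) {R T L : ℕ} (yes : (C → W) → Prop)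
    (c0 : C) (P' : NProg C W Z S) (hB : Simulates P c0 L P') (hL : L + 1 ≤ 2 ^ R) (X : ℝ)
    (hmain : X ≤ Nat.card {I : C → W // ¬ (((∃ l z, P'.Ends I l z) ↔ yes I) ∧
        ∀ l z, P'.Shortest I l z → Nat.card {b // b ∈ l} ≤ T + 1 ∧ min S l.length ≤ 2 ^ R)}) :
    X ≤ Nat.card {I : C → W // ¬ ((yes I → ∃ l k z, P.Ends I l k z ∧ k ≤ L) ∧
      ∀ l k z, P.Ends I l k z → yes I ∧ Nat.card {b // b ∈ l} ≤ T)} := by
  classical
  have : Fintype W := Fintype.ofFinite W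
  refine le_trans hmain ?_
  have h : Nat.card {I : C → W // ¬ (((∃ l z, P'.Ends I l z) ↔ yes I) ∧
        ∀ l z, P'.Shortest I l z → Nat.card {b // b ∈ l} ≤ T + 1 ∧ min S l.length ≤ 2 ^ R)} ≤
      Nat.card {I : C → W // ¬ ((yes I → ∃ l k z, P.Ends I l k z ∧ k ≤ L) ∧
      ∀ l k z, P.Ends I l k z → yes I ∧ Nat.card {b // b ∈ l} ≤ T)} := by
    rw [nc, nc]
    apply Finset.card_le_card
    intro I hI
    rw [Finset.mem_filter] at hI ⊢
    refine ⟨Finset.mem_univ _, fun hP => hI.2 ?_⟩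
    obtain ⟨hin, hall⟩ := hP
    have hE : ∀ l b, P'.Ends I l b → yes I := by
      intro l b hlb
      obtain ⟨l1, n1, h1, _⟩ := (hB I).2 l b hlb
      exact (hall l1 n1 b h1).1
    refine ⟨⟨?_, ?_⟩, ?_⟩
    · rintro ⟨l, b, hlb⟩
      exact hE l b hlb
    · intro hY
      obtain ⟨l0, n0, b0, h0, hn0⟩ := hin hY
      obtain ⟨l1, h1, _⟩ := (hB I).1 l0 n0 b0 h0 hn0
      exact ⟨_, _, h1⟩
    · intro l b hs
      refine ⟨?_, short_of_sim hB hL (hin (hE l b hs.1)) hs⟩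
      obtain ⟨l1, n1, h1, hp⟩ := (hB I).2 l b hs.1
      exact card_perm_cons hp (hall l1 n1 b h1).2
  exact_mod_cast h

end model

theorem two_pow_lt {m R : ℕ} (h : m < R) : 2 ^ m + 1 ≤ 2 ^ R := by
  have h1 : 2 ^ (m + 1) ≤ 2 ^ R := Nat.pow_le_pow_right (by norm_num) h
  have h2 : 1 ≤ 2 ^ m := Nat.one_le_two_pow
  rw [pow_succ] at h1
  omega

/-- monotonicity of the main term in the number of states -/
theorem bound_mono {n d h a R S : ℕ} {q : ℝ} {m : ℕ} {τ : ℝ} (hτ0 : 0 ≤ τ) (hτ1 : τ ≤ 1)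
    (hS : (S : ℝ) ≤ (2 * q ^ 2 + 2) ^ (m + 2)) :
    R * n.choose a * (S : ℝ) ^ 2 * (d * (2 * h) * (4 * τ * (1 - τ)) ^ h) ^ a ≤
      R * n.choose a * ((2 * q ^ 2 + 2) ^ (m + 2)) ^ 2 * (d * (2 * h) * (4 * τ * (1 - τ)) ^ h) ^ a := by
  have h1 : (0 : ℝ) ≤ 4 * τ * (1 - τ) := by
    have : 0 ≤ 1 - τ := by linarith
    positivity
  have h2 : (S : ℝ) ^ 2 ≤ ((2 * q ^ 2 + 2) ^ (m + 2)) ^ 2 := by
    gcongr
  have h3 : (0 : ℝ) ≤ (d * (2 * h) * (4 * τ * (1 - τ)) ^ h) ^ a := by positivity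
  have h4 : (0 : ℝ) ≤ R * n.choose a := by positivity
  exact mul_le_mul_of_nonneg_right (mul_le_mul_of_nonneg_left h2 h4) h3

end Pool.Agent.Helper78.NW
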