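import Pool.Agent.Helper78.NW.Root

/-!
# Decision version, and pushdown programs, from the main pieces
-/

namespace Pool.Agent.Helper78.NW

open Finset Pool.Agent.Helper74.NW Pool.Agent.Helper19.NF
open Pool.Agent.Helper74.NS (Expands)

section general

variable {U D B : Type} [Fintype U] [Fintype D] [AddCommGroup B] {S : ℕ}

/-- in the instances without collisions the result is equidistributed -/
theorem equi [Fintype B] (g : D → Equiv.Perm U) (x0 : U → B) (R : ℕ) (c : D) (v : U) (Y : Finset B) :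
    Nat.card {I : B → D → B // CF g x0 R I} * Y.card ≤
      Fintype.card B * Nat.card {I : B → D → B // CF g x0 R I ∧ res g x0 R c I ∈ Y} := by
  classical
  rw [nc, nc]
  set X : Finset (B → D → B) := univ.filter (fun I => CF g x0 R I) with hX
  set G : Finset ((B → D → B) × B) := (X ×ˢ (univ : Finset B)).filter
    (fun x => res g x0 R c x.1 + x.2 ∈ Y) with hG
  have hGm : ∀ x ∈ G, CF g x0 R x.1 ∧ res g x0 R c x.1 + x.2 ∈ Y := by
    intro x hx
    have hx1 := Finset.mem_filter.mp hx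
    exact ⟨(Finset.mem_filter.mp (Finset.mem_product.mp hx1.1).1).2, hx1.2⟩
  have h2 := fib (g := g) (x0 := x0) (R := R) c v G
    (fun x hx => (hGm x hx).1) (univ.filter (fun I => CF g x0 R I ∧ res g x0 R c I ∈ Y))
    (by
      intro x hx
      rw [Finset.mem_filter]
      refine ⟨Finset.mem_univ _, sh_CF c v x (hGm x hx).1, ?_⟩
      rw [sh_res c v x (hGm x hx).1]
      exact (hGm x hx).2) (Fintype.card B)
    (fun J => ⟨univ, by rw [Finset.card_univ], fun x _ _ => Finset.mem_univ _⟩)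
  refine le_trans ?_ h2
  have h3 : G.card = ∑ I ∈ X, (univ.filter (fun y => res g x0 R c I + y ∈ Y)).card := by
    rw [hG, Finset.card_filter, Finset.sum_product]
    refine Finset.sum_congr rfl fun I _ => ?_
    rw [Finset.card_filter]
  rw [h3, ← smul_eq_mul]
  apply Finset.card_nsmul_le_sum
  intro I _
  apply Finset.card_le_card_of_injOn (fun y => y - res g x0 R c I)
  · intro y hy
    rw [Finset.mem_coe, Finset.mem_filter]
    refine ⟨Finset.mem_univ _, ?_⟩
    show res g x0 R c I + (y - res g x0 R c I) ∈ Y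
    rw [add_sub_cancel]
    exact hy
  · intro y _ y' _ e
    exact sub_left_injective e

end general

/-- the real inequality -/
theorem dec_real (y E P W Er Gd Rt M0 Co V2 : ℝ) (hy0 : 0 ≤ y) (hy1 : y ≤ 1) (hM : 0 ≤ M0)
    (h1 : P + W ≤ Er + Gd + Rt) (h2 : Rt * (1 - y) ≤ 3 * y * W) (h3 : W ≤ Er) (h4 : Gd ≤ E * M0)
    (hE : 0 ≤ E) (hV : 0 ≤ V2) (h5 : Co * y ≤ P) (h6 : M0 - V2 * M0 ≤ Co) (hW : 0 ≤ W) :
    (min y ((1 - y) / 3) - V2 - E) * M0 ≤ Er := by
  have hEr : 0 ≤ Er := hW.trans h3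
  have hP : y * M0 - V2 * M0 ≤ P := by
    have e1 : y * (M0 - V2 * M0) ≤ y * Co := mul_le_mul_of_nonneg_left h6 hy0
    have e2 : y * (V2 * M0) ≤ 1 * (V2 * M0) := mul_le_mul_of_nonneg_right hy1 (mul_nonneg hV hM)
    nlinarith
  rcases le_or_gt (3 * y) (1 - y) with hc | hc
  · have hpos : 0 < 1 - y := by linarith
    have hRW : Rt ≤ W := by
      have e1 : Rt * (1 - y) ≤ W * (1 - y) := by
        refine h2.trans ?_
        rw [mul_comm W]
        exact mul_le_mul_of_nonneg_right hc hW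
      exact le_of_mul_le_mul_right e1 hpos
    have e2 : min y ((1 - y) / 3) * M0 ≤ y * M0 := mul_le_mul_of_nonneg_right (min_le_left _ _) hM
    nlinarith
  · rcases eq_or_lt_of_le hy1 with hy | hy
    · have e1 : min y ((1 - y) / 3) * M0 ≤ 0 := by
        have : min y ((1 - y) / 3) ≤ 0 := (min_le_right _ _).trans (by rw [hy]; norm_num)
        exact mul_nonpos_of_nonpos_of_nonneg this hM
      have e2 : 0 ≤ V2 * M0 := mul_nonneg hV hM
      have e3 : 0 ≤ E * M0 := mul_nonneg hE hM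
      nlinarith
    · have hy0' : 0 < y := by linarith
      have hpos : 0 < 1 - y := by linarith
      obtain ⟨lam, hlam⟩ : ∃ lam : ℝ, lam = (1 - y) / (3 * y) := ⟨_, rfl⟩
      have hl0 : 0 < lam := by rw [hlam]; positivity
      have hl1 : lam ≤ 1 := by
        rw [hlam, div_le_one (by positivity)]
        exact hc.le
      have hly : lam * y = (1 - y) / 3 := by
        rw [hlam]
        field_simp
      have hlR : lam * Rt ≤ W := by
        rw [hlam, div_mul_eq_mul_div, div_le_iff₀ (by positivity)]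
        nlinarith
      have e1 : lam * (P + W) ≤ lam * (Er + Gd + Rt) := mul_le_mul_of_nonneg_left h1 hl0.le
      have e2 : (1 - lam) * W ≤ (1 - lam) * Er := mul_le_mul_of_nonneg_left h3 (by linarith)
      have e3 : lam * P ≤ Er + lam * Gd := by nlinarith
      have e4 : lam * (y * M0 - V2 * M0) ≤ lam * P := mul_le_mul_of_nonneg_left hP hl0.le
      have e5 : lam * Gd ≤ lam * (E * M0) := mul_le_mul_of_nonneg_left h4 hl0.le
      have e6 : lam * (E * M0) ≤ 1 * (E * M0) := mul_le_mul_of_nonneg_right hl1 (mul_nonneg hE hM)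
      have e7 : lam * (V2 * M0) ≤ 1 * (V2 * M0) := mul_le_mul_of_nonneg_right hl1 (mul_nonneg hV hM)
      have e8 : min y ((1 - y) / 3) * M0 ≤ (1 - y) / 3 * M0 :=
        mul_le_mul_of_nonneg_right (min_le_right _ _) hM
      have e9 : lam * (y * M0) = (1 - y) / 3 * M0 := by rw [← mul_assoc, hly]
      nlinarith

section fine

variable {n d h : ℕ} {B : Type} [AddCommGroup B] [NeZero (2 * h)] {S K : ℕ}

/-- the counting behind the decision version -/
theorem decision_nat [Fintype B] (P : NProg B (Fin d × Fin (2 * h) → B) B S) (e : B → Fin K)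
    (g : Fin d → Equiv.Perm (Fin n)) (x0 : Fin n × Fin (2 * h) → B)
    {R T a : ℕ} (c : Fin d × Fin (2 * h)) (Y : Finset B) :
    Nat.card {I : B → Fin d × Fin (2 * h) → B // CF (fine g) x0 R I ∧ res (fine g) x0 R c I ∈ Y} +
      Nat.card {I : B → Fin d × Fin (2 * h) → B // res (fine g) x0 R c I ∉ Y ∧ ∃ l z, P.Ends I l z} ≤
      Nat.card {I : B → Fin d × Fin (2 * h) → B // ¬ (((∃ l z, P.Ends I l z) ↔ res (fine g) x0 R c I ∈ Y) ∧
        ∀ l z, P.Shortest I l z → Nat.card {b // b ∈ l} ≤ T ∧ min S l.length ≤ 2 ^ R)} +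
      Nat.card {I : B → Fin d × Fin (2 * h) → B // CF (fine g) x0 R I ∧ ∃ l t, Best P e I P.start l t ∧
        Nat.card {b // b ∈ l} ≤ T ∧ 2 * a ≤ (outs g x0 I R l).card ∧ l.length ≤ 2 ^ R} +
      Nat.card {I : B → Fin d × Fin (2 * h) → B // CF (fine g) x0 R I ∧ res (fine g) x0 R c I ∈ Y ∧
        ∃ l z, P.Ends I l z ∧ (outs g x0 I R l).card < 2 * a} := by
  classical
  rw [nc, nc, nc, nc, nc]
  set PP : Finset (B → Fin d × Fin (2 * h) → B) :=
    univ.filter (fun I => CF (fine g) x0 R I ∧ res (fine g) x0 R c I ∈ Y) with hP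
  set W : Finset (B → Fin d × Fin (2 * h) → B) :=
    univ.filter (fun I => res (fine g) x0 R c I ∉ Y ∧ ∃ l z, P.Ends I l z) with hW
  set Er : Finset (B → Fin d × Fin (2 * h) → B) :=
    univ.filter (fun I => ¬ (((∃ l z, P.Ends I l z) ↔ res (fine g) x0 R c I ∈ Y) ∧
        ∀ l z, P.Shortest I l z → Nat.card {b // b ∈ l} ≤ T ∧ min S l.length ≤ 2 ^ R)) with hEr
  set Gd : Finset (B → Fin d × Fin (2 * h) → B) :=
    univ.filter (fun I => CF (fine g) x0 R I ∧ ∃ l t, Best P e I P.start l t ∧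
        Nat.card {b // b ∈ l} ≤ T ∧ 2 * a ≤ (outs g x0 I R l).card ∧ l.length ≤ 2 ^ R) with hGd
  set Rt : Finset (B → Fin d × Fin (2 * h) → B) :=
    univ.filter (fun I => CF (fine g) x0 R I ∧ res (fine g) x0 R c I ∈ Y ∧
        ∃ l z, P.Ends I l z ∧ (outs g x0 I R l).card < 2 * a) with hRt
  have hsub : PP ∪ W ⊆ (Er ∪ Gd) ∪ Rt := by
    intro I hI
    rw [Finset.mem_union] at hI
    by_cases hE : I ∈ Er
    · exact Finset.mem_union_left _ (Finset.mem_union_left _ hE)
    have hgood : ((∃ l z, P.Ends I l z) ↔ res (fine g) x0 R c I ∈ Y) ∧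
        ∀ l z, P.Shortest I l z → Nat.card {b // b ∈ l} ≤ T ∧ min S l.length ≤ 2 ^ R := by
      by_contra h
      exact hE (Finset.mem_filter.mpr ⟨Finset.mem_univ _, h⟩)
    rcases hI with hI | hI
    · obtain ⟨hCF, hout⟩ := (Finset.mem_filter.mp hI).2
      obtain ⟨l₀, z₀, h0⟩ := hgood.1.mpr hout
      obtain ⟨l, z, t, hb, ht, hs⟩ := exists_best e h0
      obtain ⟨hT, hm⟩ := hgood.2 l z hs
      have hlen : l.length ≤ 2 ^ R := by
        have := shortest_lt hs
        omega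
      by_cases h4 : 2 * a ≤ (outs g x0 I R l).card
      · exact Finset.mem_union_left _ (Finset.mem_union_right _ (Finset.mem_filter.mpr
          ⟨Finset.mem_univ _, hCF, l, t, hb, hT, h4, hlen⟩))
      · exact Finset.mem_union_right _ (Finset.mem_filter.mpr
          ⟨Finset.mem_univ _, hCF, hout, l, z, hs.1, not_le.mp h4⟩)
    · obtain ⟨hout, hE'⟩ := (Finset.mem_filter.mp hI).2
      exact absurd (hgood.1.mp hE') hout
  have hdis : Disjoint PP W := by
    rw [Finset.disjoint_left]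
    intro I hI hI'
    exact (Finset.mem_filter.mp hI').2.1 (Finset.mem_filter.mp hI).2.2
  calc PP.card + W.card = (PP ∪ W).card := (Finset.card_union_of_disjoint hdis).symm
    _ ≤ ((Er ∪ Gd) ∪ Rt).card := Finset.card_le_card hsub
    _ ≤ (Er ∪ Gd).card + Rt.card := Finset.card_union_le _ _
    _ ≤ Er.card + Gd.card + Rt.card := Nat.add_le_add_right (Finset.card_union_le _ _) _

theorem wrong_le [Fintype B] (P : NProg B (Fin d × Fin (2 * h) → B) B S)
    (g : Fin d → Equiv.Perm (Fin n)) (x0 : Fin n × Fin (2 * h) → B)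
    {R T : ℕ} (c : Fin d × Fin (2 * h)) (Y : Finset B) :
    Nat.card {I : B → Fin d × Fin (2 * h) → B // res (fine g) x0 R c I ∉ Y ∧ ∃ l z, P.Ends I l z} ≤
      Nat.card {I : B → Fin d × Fin (2 * h) → B // ¬ (((∃ l z, P.Ends I l z) ↔ res (fine g) x0 R c I ∈ Y) ∧
        ∀ l z, P.Shortest I l z → Nat.card {b // b ∈ l} ≤ T ∧ min S l.length ≤ 2 ^ R)} := by
  classical
  rw [nc, nc]
  apply Finset.card_le_card
  intro I hI
  rw [Finset.mem_filter] at hI ⊢
  refine ⟨Finset.mem_univ _, fun h => hI.2.1 (h.1.mp hI.2.2)⟩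

/-- W8b, from the collision count and the bound for the instances with a good window -/
theorem decision_bound_of [Fintype B] (P : NProg B (Fin d × Fin (2 * h) → B) B S) (e : B → Fin K)
    (g : Fin d → Equiv.Perm (Fin n)) (x0 : Fin n × Fin (2 * h) → B) {R T a : ℕ}
    (hT : 2 * T ≤ Fintype.card B) (c : Fin d × Fin (2 * h)) (ha : 1 ≤ a) (hn : 8 * a ≤ n)
    (Y : Finset B) (y τ : ℝ) (hy : y = Y.card / Fintype.card B) (hτ : τ = T / Fintype.card B)
    (hC : Nat.card {I : B → Fin d × Fin (2 * h) → B // ¬ CF (fine g) x0 R I} * Fintype.card B ≤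
      ((R + 1) * (n * (2 * h))) ^ 2 * Nat.card (B → Fin d × Fin (2 * h) → B))
    (hG : Nat.card {I : B → Fin d × Fin (2 * h) → B // CF (fine g) x0 R I ∧ ∃ l t, Best P e I P.start l t ∧
        Nat.card {c // c ∈ l} ≤ T ∧ 2 * a ≤ (outs g x0 I R l).card ∧ l.length ≤ 2 ^ R} *
          (Fintype.card B ^ (2 * h)) ^ a ≤
      R * n.choose a * (d * (2 * h)) ^ a * S ^ 2 * ((4 * (T * (Fintype.card B - T))) ^ h) ^ a *
        Nat.card (B → Fin d × Fin (2 * h) → B)) :
    (min y ((1 - y) / 3) - ((R + 1) * (n * (2 * h))) ^ 2 / Fintype.card B -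
        R * n.choose a * (S : ℝ) ^ 2 * (d * (2 * h) * (4 * τ * (1 - τ)) ^ h) ^ a) *
          Nat.card (B → Fin d × Fin (2 * h) → B) ≤
      Nat.card {I : B → Fin d × Fin (2 * h) → B // ¬ (((∃ l z, P.Ends I l z) ↔ res (fine g) x0 R c I ∈ Y) ∧
        ∀ l z, P.Shortest I l z → Nat.card {b // b ∈ l} ≤ T ∧ min S l.length ≤ 2 ^ R)} := by
  classical
  have hk : 0 < Fintype.card B := Fintype.card_pos_iff.mpr ⟨0⟩
  have hkR : (0 : ℝ) < (Fintype.card B : ℝ) := by exact_mod_cast hk
  have hYk : Y.card ≤ Fintype.card B := Finset.card_le_univ Y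
  have hTk : T ≤ Fintype.card B := by omega
  have hroot := root_bound' (R := R) P g x0 c hn (by omega) Y
  have hnat := decision_nat (R := R) (T := T) (a := a) P e g x0 c Y
  have hwr := wrong_le (R := R) (T := T) P g x0 c Y
  have hequi := equi (fine g) x0 R c ((⟨0, by omega⟩ : Fin n), (0 : Fin (2 * h))) Y
  have hsplit : Nat.card {I : B → Fin d × Fin (2 * h) → B // CF (fine g) x0 R I} +
      Nat.card {I : B → Fin d × Fin (2 * h) → B // ¬ CF (fine g) x0 R I} =
      Nat.card (B → Fin d × Fin (2 * h) → B) := by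
    rw [nc, nc, Nat.card_eq_fintype_card, ← Finset.card_univ, Finset.card_filter_add_card_filter_not]
  have hτ1 : (0 : ℝ) ≤ τ := by rw [hτ]; positivity
  have hτ2 : (0 : ℝ) ≤ 1 - τ := by
    rw [hτ, sub_nonneg, div_le_one hkR]
    exact_mod_cast hTk
  have h1τ : (1 : ℝ) - τ = ((Fintype.card B - T : ℕ) : ℝ) / Fintype.card B := by
    rw [hτ, Nat.cast_sub hTk]
    field_simp
  refine dec_real y (R * n.choose a * (S : ℝ) ^ 2 * (d * (2 * h) * (4 * τ * (1 - τ)) ^ h) ^ a)
    (Nat.card {I : B → Fin d × Fin (2 * h) → B // CF (fine g) x0 R I ∧ res (fine g) x0 R c I ∈ Y})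
    (Nat.card {I : B → Fin d × Fin (2 * h) → B // res (fine g) x0 R c I ∉ Y ∧ ∃ l z, P.Ends I l z})
    _
    (Nat.card {I : B → Fin d × Fin (2 * h) → B // CF (fine g) x0 R I ∧ ∃ l t, Best P e I P.start l t ∧
        Nat.card {c // c ∈ l} ≤ T ∧ 2 * a ≤ (outs g x0 I R l).card ∧ l.length ≤ 2 ^ R})
    (Nat.card {I : B → Fin d × Fin (2 * h) → B // CF (fine g) x0 R I ∧ res (fine g) x0 R c I ∈ Y ∧
        ∃ l z, P.Ends I l z ∧ (outs g x0 I R l).card < 2 * a})
    (Nat.card (B → Fin d × Fin (2 * h) → B)) (Nat.card {I : B → Fin d × Fin (2 * h) → B // CF (fine g) x0 R I})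
    (((R + 1) * (n * (2 * h))) ^ 2 / Fintype.card B) ?_ ?_ (by positivity) ?_ ?_ ?_ ?_ (by positivity)
    (by positivity) ?_ ?_ (by positivity)
  · rw [hy]; positivity
  · rw [hy, div_le_one hkR]; exact_mod_cast hYk
  · exact_mod_cast hnat
  · have h1 : (1 : ℝ) - y = ((Fintype.card B - Y.card : ℕ) : ℝ) / Fintype.card B := by
      rw [hy, Nat.cast_sub hYk]
      field_simp
    rw [h1, hy, mul_div_assoc', mul_div_assoc', div_mul_eq_mul_div]
    exact div_le_div_of_nonneg_right (by exact_mod_cast hroot) hkR.le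
  · exact_mod_cast hwr
  · have h1 : ((Nat.card {I : B → Fin d × Fin (2 * h) → B // CF (fine g) x0 R I ∧
        ∃ l t, Best P e I P.start l t ∧ Nat.card {c // c ∈ l} ≤ T ∧ 2 * a ≤ (outs g x0 I R l).card ∧
        l.length ≤ 2 ^ R} : ℕ) : ℝ) * ((Fintype.card B : ℝ) ^ (2 * h)) ^ a ≤
        R * n.choose a * ((d : ℝ) * (2 * h)) ^ a * (S : ℝ) ^ 2 *
          ((4 * ((T : ℝ) * ((Fintype.card B - T : ℕ) : ℝ))) ^ h) ^ a *
          Nat.card (B → Fin d × Fin (2 * h) → B) := by exact_mod_cast hG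
    have hk2 : (0 : ℝ) < ((Fintype.card B : ℝ) ^ (2 * h)) ^ a := by positivity
    have h2 : (d * (2 * h) * (4 * τ * (1 - τ)) ^ h) ^ a =
        ((d : ℝ) * (2 * h)) ^ a * ((4 * ((T : ℝ) * ((Fintype.card B - T : ℕ) : ℝ))) ^ h) ^ a /
          ((Fintype.card B : ℝ) ^ (2 * h)) ^ a := by
      rw [h1τ, hτ, mul_pow, mul_div_assoc]
      congr 1
      rw [← div_pow, pow_mul, ← div_pow]
      congr 2
      field_simp
    rw [h2, mul_div_assoc', div_mul_eq_mul_div, le_div_iff₀ hk2]
    refine h1.trans (le_of_eq ?_)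
    ring
  · rw [hy, mul_div_assoc', div_le_iff₀ hkR, mul_comm ((Nat.card _ : ℕ) : ℝ) (Fintype.card B : ℝ)]
    exact_mod_cast hequi
  · have h1 : ((Nat.card {I : B → Fin d × Fin (2 * h) → B // ¬ CF (fine g) x0 R I} : ℕ) : ℝ) ≤
        (((R + 1) * (n * (2 * h))) ^ 2 / Fintype.card B) * Nat.card (B → Fin d × Fin (2 * h) → B) := by
      rw [div_mul_eq_mul_div, le_div_iff₀ hkR]
      exact_mod_cast hC
    have h2 : ((Nat.card {I : B → Fin d × Fin (2 * h) → B // CF (fine g) x0 R I} : ℕ) : ℝ) +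
        ((Nat.card {I : B → Fin d × Fin (2 * h) → B // ¬ CF (fine g) x0 R I} : ℕ) : ℝ) =
        (Nat.card (B → Fin d × Fin (2 * h) → B) : ℕ) := by
      exact_mod_cast hsplit
    linarith

end fine

end Pool.Agent.Helper78.NW
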