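import Pool.Agent.Helper78.NW.Push
import Pool.Agent.Helper74.NW.Frame

/-!
# W8b and WP (black boxes of the frame: card_not_CF, good_bound, main_bound, sim)
-/

namespace Pool.Agent.Helper78.NW

open Pool.Agent.Helper74.NW Pool.Agent.Helper19.NF
open Pool.Agent.Helper74.NS (Expands)

variable {n d h : ℕ} {B : Type} [AddCommGroup B] [NeZero (2 * h)] {S : ℕ}

/-- W8b: the decision version. -/
theorem decision_bound [Fintype B] (P : NProg B (Fin d × Fin (2 * h) → B) B S)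
    (g : Fin d → Equiv.Perm (Fin n)) (x0 : Fin n × Fin (2 * h) → B) (h0 : Function.Injective x0) {R T a : ℕ}
    (hT : 2 * T ≤ Fintype.card B) (c : Fin d × Fin (2 * h)) (ha : 1 ≤ a) (hn : 8 * a ≤ n) (hE : Expands g a)
    (Y : Finset B) (y τ : ℝ) (hy : y = Y.card / Fintype.card B) (hτ : τ = T / Fintype.card B) :
    (min y ((1 - y) / 3) - ((R + 1) * (n * (2 * h))) ^ 2 / Fintype.card B -
        R * n.choose a * (S : ℝ) ^ 2 * (d * (2 * h) * (4 * τ * (1 - τ)) ^ h) ^ a) *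
          Nat.card (B → Fin d × Fin (2 * h) → B) ≤
      Nat.card {I : B → Fin d × Fin (2 * h) → B // ¬ (((∃ l z, P.Ends I l z) ↔ res (fine g) x0 R c I ∈ Y) ∧
        ∀ l z, P.Shortest I l z → Nat.card {b // b ∈ l} ≤ T ∧ min S l.length ≤ 2 ^ R)} := by
  have : Nonempty (Fin d × Fin (2 * h)) := ⟨c⟩
  have hC := Frame.card_not_CF (fine g) x0 h0 R
  rw [Fintype.card_prod, Fintype.card_fin, Fintype.card_fin] at hC
  exact decision_bound_of P (Fintype.equivFin B) g x0 hT c ha hn Y y τ hy hτ hC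
    (Frame.good_bound P (Fintype.equivFin B) (Fintype.equivFin B).injective g x0 hT ha hE)

theorem tau_le {T k : ℕ} (hT : 2 * (T + 1) ≤ k) {τ : ℝ} (hτ : τ = (T + 1) / k) : 0 ≤ τ ∧ τ ≤ 1 := by
  have hk : (0 : ℝ) < k := by
    have : 0 < k := by omega
    exact_mod_cast this
  rw [hτ]
  refine ⟨by positivity, ?_⟩
  rw [div_le_one hk]
  have : T + 1 ≤ k := by omega
  exact_mod_cast this

/-- WP: nondeterministic pushdown programs with `q` states which end within `2 ^ m` steps. -/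
theorem push_main_bound {Q Γ : Type} [Fintype Q] [Fintype B] (P : NPProg B (Fin d × Fin (2 * h) → B) B Q Γ)
    (g : Fin d → Equiv.Perm (Fin n)) (x0 : Fin n × Fin (2 * h) → B) (h0 : Function.Injective x0) {R T a p m : ℕ}
    (hT : 2 * (T + 1) ≤ Fintype.card B) (hm : m < R) (c : Fin d × Fin (2 * h)) (ha : 1 ≤ a) (hn : 8 * a ≤ n)
    (hE : Expands g a) (φ : B → B) (hφ : ∀ y, Nat.card {x // φ x = y} ≤ p) (τ : ℝ)
    (hτ : τ = (T + 1) / Fintype.card B) :
    (Nat.card {I : B → Fin d × Fin (2 * h) → B // (∃ l k z, P.Ends I l k z ∧ k ≤ 2 ^ m) ∧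
        ∀ l k z, P.Ends I l k z → z = φ (res (fine g) x0 R c I) ∧ Nat.card {b // b ∈ l} ≤ T} : ℝ) ≤
      ((3 * p + ((R + 1) * (n * (2 * h))) ^ 2) / Fintype.card B +
        R * n.choose a * ((2 * (Fintype.card Q : ℝ) ^ 2 + 2) ^ (m + 2)) ^ 2 *
          (d * (2 * h) * (4 * τ * (1 - τ)) ^ h) ^ a) * Nat.card (B → Fin d × Fin (2 * h) → B) := by
  obtain ⟨S, hS, P', hP'⟩ := Frame.sim P (0 : B) m
  have hSr : (S : ℝ) ≤ (2 * (Fintype.card Q : ℝ) ^ 2 + 2) ^ (m + 2) := by exact_mod_cast hS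
  obtain ⟨hτ0, hτ1⟩ := tau_le hT hτ
  refine push_main_of P (fun I => φ (res (fine g) x0 R c I)) (0 : B) P' hP' (two_pow_lt hm) _ ?_
  refine (Frame.main_bound P' g x0 h0 (R := R) (T := T + 1) hT c ha hn hE φ hφ τ
    (by rw [hτ]; push_cast; rfl)).trans ?_
  refine mul_le_mul_of_nonneg_right (add_le_add_right (bound_mono hτ0 hτ1 hSr) _) (Nat.cast_nonneg _)

theorem push_decision_bound {Q Γ : Type} [Fintype Q] [Fintype B] (P : NPProg B (Fin d × Fin (2 * h) → B) B Q Γ)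
    (g : Fin d → Equiv.Perm (Fin n)) (x0 : Fin n × Fin (2 * h) → B) (h0 : Function.Injective x0) {R T a m : ℕ}
    (hT : 2 * (T + 1) ≤ Fintype.card B) (hm : m < R) (c : Fin d × Fin (2 * h)) (ha : 1 ≤ a) (hn : 8 * a ≤ n)
    (hE : Expands g a) (Y : Finset B) (y τ : ℝ) (hy : y = Y.card / Fintype.card B)
    (hτ : τ = (T + 1) / Fintype.card B) :
    (min y ((1 - y) / 3) - ((R + 1) * (n * (2 * h))) ^ 2 / Fintype.card B -
        R * n.choose a * ((2 * (Fintype.card Q : ℝ) ^ 2 + 2) ^ (m + 2)) ^ 2 *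
          (d * (2 * h) * (4 * τ * (1 - τ)) ^ h) ^ a) * Nat.card (B → Fin d × Fin (2 * h) → B) ≤
      Nat.card {I : B → Fin d × Fin (2 * h) → B //
        ¬ ((res (fine g) x0 R c I ∈ Y → ∃ l k z, P.Ends I l k z ∧ k ≤ 2 ^ m) ∧
          ∀ l k z, P.Ends I l k z → res (fine g) x0 R c I ∈ Y ∧ Nat.card {b // b ∈ l} ≤ T)} := by
  obtain ⟨S, hS, P', hP'⟩ := Frame.sim P (0 : B) m
  have hSr : (S : ℝ) ≤ (2 * (Fintype.card Q : ℝ) ^ 2 + 2) ^ (m + 2) := by exact_mod_cast hS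
  obtain ⟨hτ0, hτ1⟩ := tau_le hT hτ
  refine push_dec_of P (fun I => res (fine g) x0 R c I ∈ Y) (0 : B) P' hP' (two_pow_lt hm) _ ?_
  refine le_trans ?_ (decision_bound P' g x0 h0 (R := R) (T := T + 1) hT c ha hn hE Y y τ hy
    (by rw [hτ]; push_cast; rfl))
  refine mul_le_mul_of_nonneg_right (sub_le_sub_left (bound_mono hτ0 hτ1 hSr) _) (Nat.cast_nonneg _)

end Pool.Agent.Helper78.NW
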