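import Pool.Agent.Helper74.NW.Win

/-!
# Root step: many letters of the last row are not read
-/

namespace Pool.Agent.Helper78.NW

open Finset Pool.Agent.Helper74.NW Pool.Agent.Helper19.NF

section general

variable {U D B : Type} [Fintype U] [Fintype D] [AddCommGroup B] {S : ℕ}

open Classical in
/-- change of the entry `c` of the cell of the letter `v` of row `R` -/
noncomputable def sh (g : D → Equiv.Perm U) (x0 : U → B) (R : ℕ) (c : D) (v : U)
    (x : (B → D → B) × B) : B → D → B :=
  x.1 + fun b c' => if b = val g x0 x.1 R v ∧ c' = c then x.2 else 0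

theorem sh_delta' {g : D → Equiv.Perm U} {x0 : U → B} {R : ℕ} (c : D) (v : U)
    (x : (B → D → B) × B) [∀ (b : B) (c' : D), Decidable (b = val g x0 x.1 R v ∧ c' = c)] :
    ∀ b, (fun b c' => if b = val g x0 x.1 R v ∧ c' = c then x.2 else 0) b ≠ 0 →
      ∃ v', b = val g x0 x.1 R v' := by
  intro b hb
  by_cases h : b = val g x0 x.1 R v
  · exact ⟨v, h⟩
  · exfalso
    apply hb
    funext c'
    exact if_neg (fun e => h e.1)

theorem sh_val {g : D → Equiv.Perm U} {x0 : U → B} {R : ℕ} (c : D) (v : U)
    (x : (B → D → B) × B) (h : CF g x0 R x.1) (w : U) :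
    val g x0 (sh g x0 R c v x) R w = val g x0 x.1 R w := by
  classical
  exact val_add h _ (sh_delta' c v x) R le_rfl w

theorem sh_CF {g : D → Equiv.Perm U} {x0 : U → B} {R : ℕ} (c : D) (v : U)
    (x : (B → D → B) × B) (h : CF g x0 R x.1) : CF g x0 R (sh g x0 R c v x) := by
  classical
  exact CF_add h _ (sh_delta' c v x)

theorem sh_res {g : D → Equiv.Perm U} {x0 : U → B} {R : ℕ} (c : D) (v : U)
    (x : (B → D → B) × B) (h : CF g x0 R x.1) :
    res g x0 R c (sh g x0 R c v x) = res g x0 R c x.1 + x.2 := by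
  classical
  have h1 := res_add c h _ (sh_delta' c v x)
  unfold sh
  rw [h1]
  congr 1
  rw [Finset.sum_eq_single v]
  · exact if_pos ⟨rfl, rfl⟩
  · intro u _ hu
    apply if_neg
    rintro ⟨e, _⟩
    exact hu (h R R u v le_rfl le_rfl e).2
  · intro hv
    exact absurd (Finset.mem_univ v) hv

theorem sh_off {g : D → Equiv.Perm U} {x0 : U → B} {R : ℕ} (c : D) (v : U)
    (x : (B → D → B) × B) (b : B) (hb : b ≠ val g x0 x.1 R v) :
    sh g x0 R c v x b = x.1 b := by
  funext c'
  unfold sh
  rw [Pi.add_apply, Pi.add_apply, if_neg (fun e => hb e.1), add_zero]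

theorem sh_off' {g : D → Equiv.Perm U} {x0 : U → B} {R : ℕ} (c : D) (v : U)
    (x : (B → D → B) × B) (b : B) (c' : D) (hb : ¬ (b = val g x0 x.1 R v ∧ c' = c)) :
    sh g x0 R c v x b c' = x.1 b c' := by
  unfold sh
  rw [Pi.add_apply, Pi.add_apply, if_neg hb, add_zero]

theorem sh_on {g : D → Equiv.Perm U} {x0 : U → B} {R : ℕ} (c : D) (v : U)
    (x : (B → D → B) × B) :
    sh g x0 R c v x (val g x0 x.1 R v) c = x.1 (val g x0 x.1 R v) c + x.2 := by
  unfold sh
  rw [Pi.add_apply, Pi.add_apply, if_pos ⟨rfl, rfl⟩]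

/-- counting the pairs (instance, change) -/
theorem fib [Fintype B] [DecidableEq B] [DecidableEq D] {g : D → Equiv.Perm U} {x0 : U → B} {R : ℕ} (c : D)
    (v : U) (G : Finset ((B → D → B) × B)) (hCF : ∀ x ∈ G, CF g x0 R x.1)
    (W : Finset (B → D → B)) (hW : ∀ x ∈ G, sh g x0 R c v x ∈ W) (q : ℕ)
    (hq : ∀ J, ∃ T : Finset B, T.card ≤ q ∧ ∀ x ∈ G, sh g x0 R c v x = J → res g x0 R c x.1 ∈ T) :
    G.card ≤ q * W.card := by
  classical
  apply Finset.card_le_mul_card_image_of_maps_to hW
  intro J _
  obtain ⟨T, hT, hTm⟩ := hq J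
  refine le_trans ?_ hT
  apply Finset.card_le_card_of_injOn (fun x => res g x0 R c x.1)
  · intro x hx
    rw [Finset.mem_coe, Finset.mem_filter] at hx
    exact hTm x hx.1 hx.2
  · intro x hx y hy hxy
    rw [Finset.mem_coe, Finset.mem_filter] at hx hy
    obtain ⟨hxG, hxJ⟩ := hx
    obtain ⟨hyG, hyJ⟩ := hy
    have hxy' : res g x0 R c x.1 = res g x0 R c y.1 := hxy
    have e1 := sh_res c v x (hCF x hxG)
    have e2 := sh_res c v y (hCF y hyG)
    rw [hxJ] at e1
    rw [hyJ, ← hxy'] at e2
    have e3 : x.2 = y.2 := add_left_cancel (e1.symm.trans e2)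
    have e4 : val g x0 x.1 R v = val g x0 y.1 R v := by
      rw [← sh_val c v x (hCF x hxG) v, ← sh_val c v y (hCF y hyG) v, hxJ, hyJ]
    refine Prod.ext ?_ e3
    funext b c'
    by_cases hb : b = val g x0 x.1 R v ∧ c' = c
    · rw [hb.1, hb.2]
      have f1 := sh_on (g := g) (x0 := x0) (R := R) c v x
      have f2 := sh_on (g := g) (x0 := x0) (R := R) c v y
      rw [hxJ] at f1
      rw [hyJ, ← e4, ← e3] at f2
      exact add_right_cancel (f1.symm.trans f2)
    · have f1 := sh_off' c v x b c' hb
      have f2 := sh_off' c v y b c' (by rw [← e4]; exact hb)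
      rw [hxJ] at f1
      rw [hyJ] at f2
      exact f1.symm.trans f2

/-- the letters of the last row which some computation on `I` does not read -/
def miss (P : NProg B (D → B) B S) (g : D → Equiv.Perm U) (x0 : U → B)
    (R : ℕ) (I : B → D → B) (v : U) : Prop :=
  ∃ l z, P.Ends I l z ∧ val g x0 I R v ∉ l

/-- double counting -/
theorem dbl (X : Finset (B → D → B)) (M : (B → D → B) → U → Prop) [∀ I v, Decidable (M I v)] (N : ℕ)
    (hM : ∀ I ∈ X, N ≤ 3 * (univ.filter (fun v => M I v)).card) :
    N * X.card ≤ 3 * ∑ v : U, (X.filter (fun I => M I v)).card := by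
  have : ∑ v : U, (X.filter (fun I => M I v)).card
      = ∑ I ∈ X, (univ.filter (fun v => M I v)).card := by
    simp_rw [Finset.card_filter]
    rw [Finset.sum_comm]
  rw [this, Finset.mul_sum, mul_comm, ← smul_eq_mul]
  exact Finset.card_nsmul_le_sum X _ N hM

theorem nc {α : Type} [Fintype α] (P : α → Prop) [DecidablePred P] :
    Nat.card {x // P x} = (univ.filter P).card := by
  rw [Nat.card_eq_fintype_card, Fintype.card_subtype]

/-- W5a, general -/
theorem root_gen [Fintype B] (P : NProg B (D → B) B S) (g : D → Equiv.Perm U) (x0 : U → B)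
    {R p : ℕ} (c : D) (hU : 1 ≤ Fintype.card U) (φ : B → B) (hφ : ∀ y, Nat.card {x // φ x = y} ≤ p)
    (X : Finset (B → D → B)) (hX : ∀ I ∈ X, CF g x0 R I ∧ (∀ l z, P.Ends I l z → z = φ (res g x0 R c I)))
    [∀ I v, Decidable (miss P g x0 R I v)]
    (hM : ∀ I ∈ X, Fintype.card U ≤ 3 * (univ.filter (fun v => miss P g x0 R I v)).card) :
    X.card * Fintype.card B ≤ 3 * p * Nat.card (B → D → B) := by
  classical
  rw [Nat.card_eq_fintype_card]
  have h1 : ∀ v : U, (X.filter (fun I => miss P g x0 R I v)).card * Fintype.card B ≤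
      p * Fintype.card (B → D → B) := by
    intro v
    have h2 := fib (g := g) (x0 := x0) (R := R) c v
      ((X.filter (fun I => miss P g x0 R I v)) ×ˢ (univ : Finset B))
      (by
        intro x hx
        exact (hX _ (Finset.mem_filter.mp (Finset.mem_product.mp hx).1).1).1)
      univ (fun _ _ => Finset.mem_univ _) p
      (by
        intro J
        by_cases hJ : ∃ x ∈ (X.filter (fun I => miss P g x0 R I v)) ×ˢ (univ : Finset B),
            sh g x0 R c v x = J
        · obtain ⟨x, hx, hxJ⟩ := hJ
          have hx1 := Finset.mem_filter.mp (Finset.mem_product.mp hx).1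
          obtain ⟨l, b, ⟨t, hr, ht⟩, hl⟩ := hx1.2
          have hxX := hX _ hx1.1
          refine ⟨univ.filter (fun c' => φ c' = φ (res g x0 R c x.1)), ?_, ?_⟩
          · have := hφ (φ (res g x0 R c x.1))
            rw [nc] at this
            exact this
          · intro y hy hyJ
            have hy1 := Finset.mem_filter.mp (Finset.mem_product.mp hy).1
            have hyX := hX _ hy1.1
            rw [Finset.mem_filter]
            refine ⟨Finset.mem_univ _, ?_⟩
            have e4 : val g x0 x.1 R v = val g x0 y.1 R v := by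
              rw [← sh_val c v x hxX.1 v, ← sh_val c v y hyX.1 v, hxJ, hyJ]
            have hrun : P.Ends y.1 l b := by
              refine ⟨t, run_congr hr ?_, ht⟩
              intro b' hb'
              have hne : b' ≠ val g x0 x.1 R v := by
                intro e
                rw [e] at hb'
                exact hl hb'
              have f1 := sh_off c v x b' hne
              have f2 := sh_off c v y b' (by rw [← e4]; exact hne)
              rw [hxJ] at f1
              rw [hyJ] at f2
              exact f1.symm.trans f2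
            rw [← hyX.2 l b hrun, ← hxX.2 l b ⟨t, hr, ht⟩]
        · refine ⟨∅, by simp, ?_⟩
          intro x hx hxJ
          exact absurd ⟨x, hx, hxJ⟩ hJ)
    rw [Finset.card_product, Finset.card_univ, Finset.card_univ] at h2
    exact h2
  have h3 := dbl X (fun I v => miss P g x0 R I v) (Fintype.card U) hM
  have h4 : (∑ v : U, (X.filter (fun I => miss P g x0 R I v)).card) * Fintype.card B ≤
      Fintype.card U * (p * Fintype.card (B → D → B)) := by
    rw [Finset.sum_mul]
    refine (Finset.sum_le_sum (fun v _ => h1 v)).trans ?_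
    simp
  have h5 : Fintype.card U * (X.card * Fintype.card B) ≤
      Fintype.card U * (3 * p * Fintype.card (B → D → B)) := by
    calc Fintype.card U * (X.card * Fintype.card B) = Fintype.card U * X.card * Fintype.card B := by ring
      _ ≤ 3 * (∑ v : U, (X.filter (fun I => miss P g x0 R I v)).card) * Fintype.card B :=
        Nat.mul_le_mul_right _ h3
      _ = 3 * ((∑ v : U, (X.filter (fun I => miss P g x0 R I v)).card) * Fintype.card B) := by
        ring
      _ ≤ 3 * (Fintype.card U * (p * Fintype.card (B → D → B))) := Nat.mul_le_mul_left _ h4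
      _ = Fintype.card U * (3 * p * Fintype.card (B → D → B)) := by ring
  exact Nat.le_of_mul_le_mul_left h5 hU

/-- W5b, general -/
theorem root_gen' [Fintype B] (P : NProg B (D → B) B S) (g : D → Equiv.Perm U) (x0 : U → B)
    {R : ℕ} (c : D) (hU : 1 ≤ Fintype.card U) (Y : Finset B)
    (X : Finset (B → D → B)) (hX : ∀ I ∈ X, CF g x0 R I ∧ res g x0 R c I ∈ Y)
    [∀ I v, Decidable (miss P g x0 R I v)]
    (hM : ∀ I ∈ X, Fintype.card U ≤ 3 * (univ.filter (fun v => miss P g x0 R I v)).card)
    (W : Finset (B → D → B)) (hWm : ∀ I, res g x0 R c I ∉ Y → (∃ l z, P.Ends I l z) → I ∈ W) :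
    X.card * (Fintype.card B - Y.card) ≤ 3 * Y.card * W.card := by
  classical
  have h1 : ∀ v : U, (X.filter (fun I => miss P g x0 R I v)).card * (Fintype.card B - Y.card) ≤
      Y.card * W.card := by
    intro v
    set G : Finset ((B → D → B) × B) :=
      ((X.filter (fun I => miss P g x0 R I v)) ×ˢ (univ : Finset B)).filter
        (fun x => res g x0 R c x.1 + x.2 ∉ Y) with hG
    have hGm : ∀ x ∈ G, x.1 ∈ X ∧ miss P g x0 R x.1 v ∧ res g x0 R c x.1 + x.2 ∉ Y := by
      intro x hx
      have hx1 := Finset.mem_filter.mp hx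
      have hx2 := Finset.mem_filter.mp (Finset.mem_product.mp hx1.1).1
      exact ⟨hx2.1, hx2.2, hx1.2⟩
    have h2 := fib (g := g) (x0 := x0) (R := R) c v G
      (fun x hx => (hX _ (hGm x hx).1).1) W
      (by
        intro x hx
        obtain ⟨hxX, ⟨l, b, ⟨t, hr, ht⟩, hl⟩, hxY⟩ := hGm x hx
        have hCF := (hX _ hxX).1
        apply hWm
        · rw [sh_res c v x hCF]; exact hxY
        · refine ⟨l, b, t, ?_, ht⟩
          apply run_congr hr
          intro b' hb'
          rw [sh_off]
          intro e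
          rw [e] at hb'
          exact hl hb') Y.card
      (by
        intro J
        exact ⟨Y, le_rfl, fun x hx _ => (hX _ (hGm x hx).1).2⟩)
    refine le_trans ?_ h2
    have h3 : G.card = ∑ I ∈ X.filter (fun I => miss P g x0 R I v),
        (univ.filter (fun y => res g x0 R c I + y ∉ Y)).card := by
      rw [hG, Finset.card_filter, Finset.sum_product]
      refine Finset.sum_congr rfl fun I _ => ?_
      rw [Finset.card_filter]
    rw [h3, ← smul_eq_mul]
    apply Finset.card_nsmul_le_sum
    intro I _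
    have h4 : (univ.filter (fun y => res g x0 R c I + y ∉ Y)).card = (univ.filter (fun y => y ∉ Y)).card := by
      apply Finset.card_bij (fun y _ => res g x0 R c I + y)
      · intro y hy
        rw [Finset.mem_filter] at hy ⊢
        exact ⟨Finset.mem_univ _, hy.2⟩
      · intro y _ y' _ e
        exact add_left_cancel e
      · intro z hz
        refine ⟨z - res g x0 R c I, ?_, by abel⟩
        rw [Finset.mem_filter] at hz ⊢
        refine ⟨Finset.mem_univ _, ?_⟩
        rw [add_sub_cancel]
        exact hz.2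
    rw [h4]
    have h5 : univ.filter (fun y => y ∉ Y) = Yᶜ := by
      ext y; simp
    rw [h5, Finset.card_compl]
  have h3 := dbl X (fun I v => miss P g x0 R I v) (Fintype.card U) hM
  have h4 : (∑ v : U, (X.filter (fun I => miss P g x0 R I v)).card) * (Fintype.card B - Y.card) ≤
      Fintype.card U * (Y.card * W.card) := by
    rw [Finset.sum_mul]
    refine (Finset.sum_le_sum (fun v _ => h1 v)).trans ?_
    simp
  have h5 : Fintype.card U * (X.card * (Fintype.card B - Y.card)) ≤ Fintype.card U * (3 * Y.card * W.card) := by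
    calc Fintype.card U * (X.card * (Fintype.card B - Y.card))
        = Fintype.card U * X.card * (Fintype.card B - Y.card) := by ring
      _ ≤ 3 * (∑ v : U, (X.filter (fun I => miss P g x0 R I v)).card) * (Fintype.card B - Y.card) :=
        Nat.mul_le_mul_right _ h3
      _ = 3 * ((∑ v : U, (X.filter (fun I => miss P g x0 R I v)).card) * (Fintype.card B - Y.card)) := by
        ring
      _ ≤ 3 * (Fintype.card U * (Y.card * W.card)) := Nat.mul_le_mul_left _ h4
      _ = Fintype.card U * (3 * Y.card * W.card) := by ring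
  exact Nat.le_of_mul_le_mul_left h5 hU

end general

section fine

variable {n d h : ℕ} {B : Type} [AddCommGroup B] [NeZero (2 * h)] {S : ℕ}

open Classical in
theorem card_miss (P : NProg B (Fin d × Fin (2 * h) → B) B S) (g : Fin d → Equiv.Perm (Fin n))
    (x0 : Fin n × Fin (2 * h) → B) {R a : ℕ} (hn : 8 * a ≤ n) (I : B → Fin d × Fin (2 * h) → B)
    (hI : ∃ l z, P.Ends I l z ∧ (outs g x0 I R l).card < 2 * a) :
    Fintype.card (Fin n × Fin (2 * h)) ≤ 3 * (univ.filter (fun v => miss P (fine g) x0 R I v)).card := by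
  obtain ⟨l, z, h1, h2⟩ := hI
  -- the unread letters of the nodes outside `outs`
  have h3 : ((outs g x0 I R l)ᶜ).sigma (fun u => univ.filter (fun t => val (fine g) x0 I R (u, t) ∉ l)) =
      ((outs g x0 I R l)ᶜ).sigma (fun u => univ.filter (fun t => val (fine g) x0 I R (u, t) ∉ l)) := rfl
  have h4 : (((outs g x0 I R l)ᶜ).sigma
      (fun u => (univ : Finset (Fin (2 * h))).filter (fun t => val (fine g) x0 I R (u, t) ∉ l))).card ≤
      (univ.filter (fun v => miss P (fine g) x0 R I v)).card := by
    apply Finset.card_le_card_of_injOn (fun x => (x.1, x.2))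
    · intro x hx
      rw [Finset.mem_coe, Finset.mem_sigma, Finset.mem_filter] at hx
      rw [Finset.mem_coe, Finset.mem_filter]
      exact ⟨Finset.mem_univ _, l, z, h1, hx.2.2⟩
    · intro x _ y _ e
      have e1 : x.1 = y.1 := congrArg Prod.fst e
      have e2 : x.2 = y.2 := congrArg Prod.snd e
      exact Sigma.ext e1 (heq_of_eq e2)
  have h5 : ((outs g x0 I R l)ᶜ).card * h ≤ (((outs g x0 I R l)ᶜ).sigma
      (fun u => (univ : Finset (Fin (2 * h))).filter (fun t => val (fine g) x0 I R (u, t) ∉ l))).card := by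
    rw [Finset.card_sigma, ← smul_eq_mul]
    apply Finset.card_nsmul_le_sum
    intro u hu
    rw [Finset.mem_compl] at hu
    unfold outs at hu
    rw [Finset.mem_filter] at hu
    have h6 : (univ.filter (fun t : Fin (2 * h) => val (fine g) x0 I R (u, t) ∈ l)).card +
        (univ.filter (fun t : Fin (2 * h) => ¬ val (fine g) x0 I R (u, t) ∈ l)).card = 2 * h := by
      rw [Finset.card_filter_add_card_filter_not, Finset.card_univ, Fintype.card_fin]
    have h7 : ¬ h ≤ (univ.filter (fun t : Fin (2 * h) => val (fine g) x0 I R (u, t) ∈ l)).card :=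
      fun e => hu ⟨Finset.mem_univ _, e⟩
    omega
  have h6 : ((outs g x0 I R l)ᶜ).card + (outs g x0 I R l).card = n := by
    rw [Finset.card_compl, Fintype.card_fin]
    have := Finset.card_le_univ (outs g x0 I R l)
    rw [Fintype.card_fin] at this
    omega
  rw [Fintype.card_prod, Fintype.card_fin, Fintype.card_fin]
  have h7 : 3 * n ≤ 4 * ((outs g x0 I R l)ᶜ).card := by omega
  have h8 : 3 * n * h ≤ 4 * ((outs g x0 I R l)ᶜ).card * h := Nat.mul_le_mul_right _ h7
  have h9 := h5.trans h4
  nlinarith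

/-- W5a -/
theorem root_bound [Fintype B] (P : NProg B (Fin d × Fin (2 * h) → B) B S)
    (g : Fin d → Equiv.Perm (Fin n)) (x0 : Fin n × Fin (2 * h) → B) {R a p : ℕ} (c : Fin d × Fin (2 * h))
    (hn : 8 * a ≤ n) (hn1 : 1 ≤ n) (φ : B → B) (hφ : ∀ y, Nat.card {x // φ x = y} ≤ p) :
    Nat.card {I : B → Fin d × Fin (2 * h) → B // CF (fine g) x0 R I ∧
        (∀ l z, P.Ends I l z → z = φ (res (fine g) x0 R c I)) ∧
        ∃ l z, P.Ends I l z ∧ (outs g x0 I R l).card < 2 * a} * Fintype.card B ≤
      3 * p * Nat.card (B → Fin d × Fin (2 * h) → B) := by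
  classical
  rw [nc]
  have hU : 1 ≤ Fintype.card (Fin n × Fin (2 * h)) := by
    rw [Fintype.card_prod, Fintype.card_fin, Fintype.card_fin]
    exact Nat.mul_pos hn1 (NeZero.pos (2 * h))
  refine root_gen P (fine g) x0 (R := R) c hU φ hφ _ ?_ ?_
  · intro I hI
    obtain ⟨_, h1, h2, _⟩ := Finset.mem_filter.mp hI
    exact ⟨h1, h2⟩
  · intro I hI
    obtain ⟨_, _, _, h3⟩ := Finset.mem_filter.mp hI
    exact card_miss P g x0 hn I h3

/-- W5b -/
theorem root_bound' [Fintype B] (P : NProg B (Fin d × Fin (2 * h) → B) B S)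
    (g : Fin d → Equiv.Perm (Fin n)) (x0 : Fin n × Fin (2 * h) → B) {R a : ℕ} (c : Fin d × Fin (2 * h))
    (hn : 8 * a ≤ n) (hn1 : 1 ≤ n) (Y : Finset B) :
    Nat.card {I : B → Fin d × Fin (2 * h) → B // CF (fine g) x0 R I ∧ res (fine g) x0 R c I ∈ Y ∧
        ∃ l z, P.Ends I l z ∧ (outs g x0 I R l).card < 2 * a} * (Fintype.card B - Y.card) ≤
      3 * Y.card * Nat.card {I : B → Fin d × Fin (2 * h) → B // res (fine g) x0 R c I ∉ Y ∧ ∃ l z, P.Ends I l z} := by
  classical
  rw [nc, nc]
  have hU : 1 ≤ Fintype.card (Fin n × Fin (2 * h)) := by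
    rw [Fintype.card_prod, Fintype.card_fin, Fintype.card_fin]
    exact Nat.mul_pos hn1 (NeZero.pos (2 * h))
  refine root_gen' P (fine g) x0 (R := R) c hU Y _ ?_ ?_ _ ?_
  · intro I hI
    obtain ⟨_, h1, h2, _⟩ := Finset.mem_filter.mp hI
    exact ⟨h1, h2⟩
  · intro I hI
    obtain ⟨_, _, _, h3⟩ := Finset.mem_filter.mp hI
    exact card_miss P g x0 hn I h3
  · intro I h1 h2
    exact Finset.mem_filter.mpr ⟨Finset.mem_univ _, h1, h2⟩

end fine

end Pool.Agent.Helper78.NW
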